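import Pool.Agent.H38.CloneToMonoid
import Pool.Agent.H38.MonoidToGroup

/-! # The lattice of local clones embeds into the lattice of local permutation groups -/

namespace Pool.Agent.Results.MP_cac0a5_al.CloneGroup

open Pool.Agent.H38

universe u

theorem result : ∀ (X : Type u) [Countable X] [Infinite X],
    ∃ f : LatticeHom (LocalClone X) (LocalGroup X), Function.Injective f := by
  intro X _ _
  have : Countable (Pt X) := by unfold Pt; infer_instance
  have : Infinite (Pt X) :=
    Infinite.of_injective (fun x : X => (⟨(0, 0), fun _ => x⟩ : Pt X)) (by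
      intro x y h
      have h1 := eq_of_heq (Sigma.mk.inj h).2
      exact congrFun h1 0)
  obtain ⟨e⟩ : Nonempty (Pt X ≃ ℕ) := nonempty_equiv_of_countable
  have : Countable VV := by infer_instance
  have : Infinite VV := Infinite.of_injective (fun i : ℕ => bs i []) (by
    intro i j h
    have h1 := Finsupp.single_left_injective (one_ne_zero (α := ZMod 2)) h
    exact congrArg Prod.fst h1)
  obtain ⟨e'⟩ : Nonempty (VV ≃ X) := nonempty_equiv_of_countable
  obtain ⟨f, hf⟩ := exists_clone_monoid X
  let g := LocalMonoid.mapIso e
  let g' := LocalGroup.mapIso e'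
  have hinj : Function.Injective psi := fun M N h =>
    le_antisymm (le_of_psi_le h.le) (le_of_psi_le h.ge)
  refine exists_latticeHom (fun a => g' (psi (g (f a))))
    (fun a b h => g'.monotone (psi_mono (g.monotone (OrderHomClass.mono f h))))
    (g'.injective.comp (hinj.comp (g.injective.comp hf))) (fun a b => ?_) (fun a b => ?_)
  · rw [map_inf f, map_inf g, ← map_inf g']
    exact g'.monotone (psi_inf _ _)
  · rw [map_sup f, map_sup g, ← map_sup g']
    exact g'.monotone (psi_sup _ _)

end Pool.Agent.Results.MP_cac0a5_al.CloneGroup
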