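import Pool.Agent.H38.CloneToMonoid

/-! # The lattice of local clones embeds into the lattice of local transformation monoids -/

namespace Pool.Agent.Results.MP_cac0a5_al.CloneMonoid

open Pool.Agent.H38

universe u

theorem result : ∀ (X : Type u) [Countable X] [Infinite X],
    ∃ f : LatticeHom (LocalClone X) (LocalMonoid X), Function.Injective f := by
  intro X _ _
  have : Countable (Pt X) := by unfold Pt; infer_instance
  have : Infinite (Pt X) :=
    Infinite.of_injective (fun x : X => (⟨(0, 0), fun _ => x⟩ : Pt X)) (by
      intro x y h
      have h1 := eq_of_heq (Sigma.mk.inj h).2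
      exact congrFun h1 0)
  obtain ⟨e⟩ : Nonempty (Pt X ≃ X) := nonempty_equiv_of_countable
  obtain ⟨f, hf⟩ := exists_clone_monoid X
  let g := LocalMonoid.mapIso e
  refine exists_latticeHom (fun a => g (f a)) (fun a b h => g.monotone (OrderHomClass.mono f h))
    (g.injective.comp hf) (fun a b => ?_) (fun a b => ?_)
  · rw [map_inf f, map_inf g]
  · rw [map_sup f, map_sup g]

end Pool.Agent.Results.MP_cac0a5_al.CloneMonoid
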